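import Pool.Agent.H671R2.PolyAuto
import Pool.Agent.NPC.Dec

/-!
# Bicircular matroids are efficiently pigeonhole (MP_cce914_co, Q1): definitions and tasks

Graph code `G : List (ℕ × ℕ)` = list of edges (loops and parallel edges allowed), ground set
`gs G = range n`, `n = G.length`.  Every task is a `Prop` named `S_XXX`; its proof is sketched in
its docstring.  A task may assume other tasks: these are the hypotheses of `S_XXX`.
Files: `Pool/Agent/T2h28/BP/T_XXX.lean`, `theorem t_XXX : S_XXX`.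
-/

namespace Pool.Agent.T2h28.BP

open Pool.Agent.NPC

/-- Codes of graphs: the list of the edges, each one with its two ends (equal for a loop). -/
abbrev Gr := List (ℕ × ℕ)

/-- The `i`-th edge. -/
def ed (G : Gr) (i : ℕ) : ℕ × ℕ := G.getD i (0, 0)

/-- The ground set: all edges. -/
def gs (G : Gr) : Finset ℕ := Finset.range G.length

/-- The ends of an edge. -/
def ends (G : Gr) (i : ℕ) : Finset ℕ := {(ed G i).1, (ed G i).2}

/-- The vertices covered by an edge set. -/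
def V (G : Gr) (F : Finset ℕ) : Finset ℕ := F.biUnion (ends G)

/-- Degree of a vertex in the subgraph formed by `S` (a loop counts twice). -/
def dg (G : Gr) (S : Finset ℕ) (v : ℕ) : ℕ :=
  ∑ i ∈ S, ((if (ed G i).1 = v then 1 else 0) + (if (ed G i).2 = v then 1 else 0))

/-- Independence of `S` together with one loop at every vertex of `A` (Hall condition for the
sets `ends G e \ A`). -/
def IndA (G : Gr) (A S : Finset ℕ) : Prop := ∀ F ⊆ S, F.card ≤ (V G F \ A).card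

/-- Independence in the bicircular matroid (counting form). -/
def Ind (G : Gr) (S : Finset ℕ) : Prop := ∀ F ⊆ S, F.card ≤ (V G F).card

/-- Rank. -/
noncomputable def rk (G : Gr) (S : Finset ℕ) : ℕ := sSup {k | ∃ I ⊆ S, Ind G I ∧ I.card = k}

/-- Connectivity function. -/
noncomputable def lam (G : Gr) (U : Finset ℕ) : ℕ := rk G U + rk G (gs G \ U) - rk G (gs G)

/-- Two edges share a vertex. -/
def adj (G : Gr) (e f : ℕ) : Prop := ∃ v, v ∈ ends G e ∧ v ∈ ends G f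

/-- `D` is closed under adjacency inside `K`. -/
def Cl (G : Gr) (K D : Finset ℕ) : Prop := ∀ e ∈ D, ∀ f ∈ K, adj G e f → f ∈ D

/-- `F` is connected (as a set of edges). -/
def Conn (G : Gr) (F : Finset ℕ) : Prop := F.Nonempty ∧ ∀ D ⊆ F, D.Nonempty → Cl G F D → D = F

/-! ### The literal definition of independence -/

/-- `C` is (the edge set of) a cycle: connected and 2-regular (a loop is a cycle, two parallel
edges form a cycle). -/
def IsCyc (G : Gr) (C : Finset ℕ) : Prop := Conn G C ∧ ∀ v ∈ V G C, dg G C v = 2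

/-- `K` is (the edge set of) a connected component of the subgraph formed by `S`. -/
def IsComp (G : Gr) (S K : Finset ℕ) : Prop := K ⊆ S ∧ Conn G K ∧ Cl G S K

/-- Independence in the bicircular matroid: each connected component of the subgraph formed by `S`
contains at most one cycle. -/
def BInd (G : Gr) (S : Finset ℕ) : Prop :=
  ∀ K, IsComp G S K → ∀ C C', C ⊆ K → C' ⊆ K → IsCyc G C → IsCyc G C' → C = C'

/-! ### The construction -/

/-- Delete the edges having an end of degree `≤ 1`. -/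
def lrm (G : Gr) (S : Finset ℕ) : Finset ℕ :=
  S.filter (fun i => 2 ≤ dg G S (ed G i).1 ∧ 2 ≤ dg G S (ed G i).2)

/-- The 2-core. -/
def core (G : Gr) (S : Finset ℕ) : Finset ℕ := (lrm G)^[G.length] S

open Classical in
/-- The largest subset of `S ∩ A` which is closed under `ρ` inside `A`. -/
noncomputable def lc (G : Gr) (ρ : ℕ → ℕ → Prop) (A S : Finset ℕ) : Finset ℕ :=
  (fun Q : Finset ℕ => Q.filter (fun e => ∀ f ∈ A, ρ e f → f ∈ Q))^[G.length] (S ∩ A)

/-- The edges of `K` both ends of which have degree 2 in `K`. -/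
def reg2 (G : Gr) (K : Finset ℕ) : Finset ℕ :=
  K.filter (fun e => dg G K (ed G e).1 = 2 ∧ dg G K (ed G e).2 = 2)

/-- The union of the 2-regular components of the 2-core of the whole graph. -/
noncomputable def ncl (G : Gr) : Finset ℕ :=
  lc G (adj G) (core G (gs G)) (reg2 G (core G (gs G)))

/-- `E'`: the edges which are not coloops of the bicircular matroid. -/
noncomputable def ep (G : Gr) : Finset ℕ := core G (gs G) \ ncl G

/-- Two edges share a vertex of degree 2 in `E'`. -/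
def lnk (G : Gr) (e f : ℕ) : Prop := ∃ v, v ∈ ends G e ∧ v ∈ ends G f ∧ dg G (ep G) v = 2

/-- Thread-closed sets. -/
def TC (G : Gr) (S : Finset ℕ) : Prop := S ⊆ ep G ∧ ∀ e ∈ S, ∀ f ∈ ep G, lnk G e f → f ∈ S

/-- The largest thread-closed subset of `S`. -/
noncomputable def sat (G : Gr) (S : Finset ℕ) : Finset ℕ := lc G (lnk G) (ep G) S

/-- `e` and `f` are in the same thread. -/
def thr (G : Gr) (e f : ℕ) : Prop := ∀ S, TC G S → (e ∈ S ↔ f ∈ S)

/-- The edges of `X` in mixed threads that `X` and the complement of `U` complete. -/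
noncomputable def xm (G : Gr) (U X : Finset ℕ) : Finset ℕ :=
  (sat G (X ∪ (gs G \ U)) ∩ U) \ sat G U

/-- Terminals. -/
noncomputable def tv (G : Gr) (U : Finset ℕ) : Finset ℕ := V G (sat G U) ∩ V G (ep G \ sat G U)

/-- The equivalence relation. -/
def R (G : Gr) (U X X' : Finset ℕ) : Prop :=
  (¬ Ind G X ∧ ¬ Ind G X') ∨ (Ind G X ∧ Ind G X' ∧ xm G U X = xm G U X' ∧
    ∀ p ∈ tv G U, ∀ q ∈ tv G U, (IndA G {p, q} (sat G X) ↔ IndA G {p, q} (sat G X')))

/-- The number of classes. -/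
def pi (l : ℕ) : ℕ := 2 ^ (1 + 6 * l + 196 * l ^ 2)

/-! ### Basic tasks -/

/-- **BAS** (60 lines).  Basic facts on degrees.  Double counting: `∑ v ∈ W, dg G S v` =
`∑ i ∈ S` (number of positions (first, second) of edge `i` whose vertex is in `W`) by
`Finset.sum_comm`; if `V G S ⊆ W` each edge contributes exactly 2. -/
def S_BAS : Prop :=
  (∀ (G : Gr) (S W : Finset ℕ), V G S ⊆ W → ∑ v ∈ W, dg G S v = 2 * S.card) ∧
  (∀ (G : Gr) (S S' : Finset ℕ) (v : ℕ), Disjoint S S' → dg G (S ∪ S') v = dg G S v + dg G S' v) ∧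
  (∀ (G : Gr) (S S' : Finset ℕ) (v : ℕ), S ⊆ S' → dg G S v ≤ dg G S' v) ∧
  (∀ (G : Gr) (S : Finset ℕ) (v : ℕ), v ∈ V G S ↔ 0 < dg G S v) ∧
  (∀ (G : Gr) (S : Finset ℕ) (v e : ℕ), e ∉ S → v ∈ ends G e →
    dg G S v + 1 ≤ dg G (insert e S) v) ∧
  (∀ (G : Gr) (S : Finset ℕ) (v e f : ℕ), e ∈ S → f ∈ S → e ≠ f → v ∈ ends G e → v ∈ ends G f →
    2 ≤ dg G S v) ∧
  (∀ (G : Gr) (S W : Finset ℕ), (∀ e ∈ S, ends G e ⊆ W ∨ Disjoint (ends G e) W) →
    ∑ v ∈ W, dg G S v = 2 * (S.filter (fun e => ends G e ⊆ W)).card)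

/-- **HAL** (70 lines).  Hall's theorem `Finset.all_card_le_biUnion_card_iff_exists_injective`
applied to the family `e ↦ ends G e \ A` indexed by the subtype of `S`
(`(V G F) \ A = F.biUnion (fun e => ends G e \ A)`). -/
def S_HAL : Prop :=
  ∀ (G : Gr) (A S : Finset ℕ), IndA G A S ↔
    ∃ φ : ℕ → ℕ, (∀ e ∈ S, φ e ∈ ends G e ∧ φ e ∉ A) ∧ Set.InjOn φ (S : Set ℕ)

/-- **LCP** (60 lines).  For `A ⊆ gs G` the iterated filter `lc` is a subset of `S ∩ A`, closed
under `ρ` in `A`, and contains every subset of `S ∩ A` closed under `ρ` in `A`.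
(The sequence decreases; starting from at most `n` elements it is stationary after `n` steps.) -/
def S_LCP : Prop :=
  ∀ (G : Gr) (ρ : ℕ → ℕ → Prop) (A S : Finset ℕ), A ⊆ gs G →
    lc G ρ A S ⊆ S ∩ A ∧ (∀ e ∈ lc G ρ A S, ∀ f ∈ A, ρ e f → f ∈ lc G ρ A S) ∧
    (∀ D ⊆ S ∩ A, (∀ e ∈ D, ∀ f ∈ A, ρ e f → f ∈ D) → D ⊆ lc G ρ A S)

/-- **COR** (70 lines).  The 2-core: for `S ⊆ gs G`, `core G S ⊆ S`, all its edges have both ends
of degree `≥ 2` in it, and it contains every subset of `S` with this property (`dg` is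
monotone). -/
def S_COR : Prop :=
  ∀ (G : Gr) (S : Finset ℕ), S ⊆ gs G →
    core G S ⊆ S ∧ (∀ v ∈ V G (core G S), 2 ≤ dg G (core G S) v) ∧
    (∀ D ⊆ S, (∀ v ∈ V G D, 2 ≤ dg G D v) → D ⊆ core G S)

/-- **CIR** (70 lines).  A set that is not independent contains a minimal `C` with
`|V(C)| < |C|`, and in a minimal one every degree is `≥ 2`: if `v ∈ V(C)` has degree 1 in `C`,
take the edge `e` at `v`; then `v ∉ V(C \ e)`, so `|V(C \ e)| < |V(C)|` and `C \ e` is smaller. -/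
def S_CIR : Prop := S_BAS → ∀ (G : Gr) (S : Finset ℕ), ¬ Ind G S →
    ∃ C ⊆ S, (V G C).card < C.card ∧ (∀ D ⊂ C, D.card ≤ (V G D).card) ∧
      ∀ v ∈ V G C, 2 ≤ dg G C v

/-- **ICO** (80 lines).  `S ⊆ gs G` is independent iff all degrees in its 2-core `K` are 2.
(→) `|K| ≤ |V(K)|`, degrees `≥ 2` and `∑_{V(K)} dg = 2|K|`.  (←) take `C` from `CIR`:
`C ⊆ K` by the maximality of `K`; `2|C| = ∑_{V(C)} dg C ≤ 2|V(C)|`. -/
def S_ICO : Prop := S_BAS → S_COR → S_CIR → ∀ (G : Gr) (S : Finset ℕ), S ⊆ gs G →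
    (Ind G S ↔ ∀ e ∈ core G S, dg G (core G S) (ed G e).1 = 2 ∧ dg G (core G S) (ed G e).2 = 2)

/-- **EPR** (100 lines).  Properties of `E' = K \ N`, `K = core G (gs G)`, `N = ncl G` (closed
under adjacency in `K`, so no edge of `E'` is adjacent to an edge of `N`; hence degrees of
vertices of `V(E')` in `E'` and in `K` agree).  Fourth: if `D ⊆ E'` is nonempty, closed under
adjacency in `E'` and all its vertices have degree 2 in `E'`, then `D ⊆ reg2 G K` is closed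
under adjacency in `K`, so `D ⊆ N` by maximality, a contradiction. -/
def S_EPR : Prop := S_BAS → S_LCP → S_COR → ∀ (G : Gr), ep G ⊆ gs G ∧
    (∀ v ∈ V G (ep G), 2 ≤ dg G (ep G) v) ∧
    (∀ e ∈ ep G, ∀ f ∈ core G (gs G), adj G e f → f ∈ ep G) ∧
    (∀ D ⊆ ep G, D.Nonempty → Cl G (ep G) D → ∃ v ∈ V G D, dg G (ep G) v ≠ 2) ∧
    (∀ v ∈ V G (ncl G), dg G (ncl G) v ≤ 2)

/-- **COL** (80 lines).  The edges outside `E'` are coloops.  Let `S ∩ E'` be independent and `S`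
not; take `C ⊆ S` from `CIR`.  `C ⊆ K` by maximality of the core.  `C ∩ N`: degrees `≤ 2`, so
`|C ∩ N| ≤ |V(C ∩ N)|` by double counting; `C \ N ⊆ S ∩ E'` so `|C \ N| ≤ |V(C \ N)|`; the two
vertex sets are disjoint by (3) of `EPR`; hence `|C| ≤ |V(C)|`, a contradiction. -/
def S_COL : Prop := S_BAS → S_LCP → S_COR → S_CIR → S_EPR → ∀ (G : Gr) (S : Finset ℕ),
    S ⊆ gs G → Ind G (S ∩ ep G) → Ind G S

/-- **RKB** (50 lines).  Basic facts on `rk` (`Nat.sSup_mem`, bounded by the cardinality). -/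
def S_RKB : Prop := ∀ (G : Gr) (S : Finset ℕ),
    (∃ I ⊆ S, Ind G I ∧ I.card = rk G S) ∧ (∀ I ⊆ S, Ind G I → I.card ≤ rk G S) ∧
    rk G S ≤ (V G S).card ∧ (∀ I S' : Finset ℕ, I ⊆ S' → Ind G S' → Ind G I)

/-- **RKE** (80 lines).  `rk S = rk (S ∩ E') + |S \ E'|` (from `COL`: if `J ⊆ S ∩ E'` is
independent then so is `J ∪ (S \ E')`), and hence the formula for `lam`. -/
def S_RKE : Prop := S_RKB → (∀ (G : Gr) (S : Finset ℕ), S ⊆ gs G → Ind G (S ∩ ep G) → Ind G S) →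
    (∀ G : Gr, ep G ⊆ gs G) → ∀ (G : Gr) (U : Finset ℕ), U ⊆ gs G →
    rk G (U ∩ ep G) + rk G (ep G \ U) ≤ lam G U + rk G (ep G)

/-- **CTC** (80 lines).  Every dependent `S ⊆ gs G` contains a thread-closed set `C` with
`|V(C)| < |C|`.  Take `S ∩ E'`, which is dependent by `COL`; `C` from `CIR` inside it.  If
`e ∈ C`, `f ∈ E'`, `v` a common end with `dg E' v = 2` and `f ∉ C` then
`dg C v + 1 ≤ dg (insert f C) v ≤ dg E' v = 2`, against `2 ≤ dg C v`. -/
def S_CTC : Prop := S_BAS → S_CIR → (∀ (G : Gr) (S : Finset ℕ), S ⊆ gs G → Ind G (S ∩ ep G) →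
    Ind G S) → ∀ (G : Gr) (S : Finset ℕ), S ⊆ gs G → ¬ Ind G S →
    ∃ C ⊆ S, TC G C ∧ (V G C).card < C.card

/-- **CNV** (40 lines).  A connected edge set has at most one more vertex than edges: take
a maximal nonempty `D ⊆ F` with `|V(D)| ≤ |D| + 1`; if `D ≠ F` it is not closed under adjacency
in `F`; add an adjacent edge (at most one new vertex). -/
def S_CNV : Prop := ∀ (G : Gr) (F : Finset ℕ), Conn G F → (V G F).card ≤ F.card + 1

/-- **STA** (100 lines).  If `S` stays independent after adding loops at any two vertices of `A`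
(`p = q` allowed) then it is independent with loops at all vertices of `A`.  Suppose not; take
a minimal `F ⊆ S` with `|F| > |V(F) \ A|`; `F` is nonempty.  `F` is connected: if `D ⊆ F` is
nonempty, closed under adjacency in `F` and `D ≠ F`, then `V(D)` and `V(F \ D)` are disjoint and
by minimality `|D| ≤ |V(D) \ A|` and `|F \ D| ≤ |V(F \ D) \ A|`, sum.  By `CNV`,
`|V(F)| ≤ |F| + 1`.  If `V(F) ∩ A` is empty: contradiction with `Ind G S`.  If it has exactly
one element `p`: `|V(F) \ A| = |V(F) \ {p}|`, contradiction.  If it has two elements `p ≠ q`: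
`|F| ≤ |V(F) \ {p,q}| = |V(F)| - 2 ≤ |F| - 1`. -/
def S_STA : Prop := S_CNV → ∀ (G : Gr) (A S : Finset ℕ), Ind G S →
    (∀ p ∈ A, ∀ q ∈ A, IndA G {p, q} S) → IndA G A S

/-- **REF** (150 lines).  The relation `R` refines the natural equivalence.  By symmetry suppose
`X ∪ Z` independent and `X' ∪ Z` dependent.  `X`, `X'` are both independent or both dependent; in
the second case nothing to do (`X ⊆ X ∪ Z`).  Take `C ⊆ X' ∪ Z` from `CTC`.  `C ∩ sat U` is
thread-closed and contained in `X'` (as `sat U ⊆ U`), so `C ∩ sat U ⊆ sat X'` (`LCP`).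
`Q := C \ sat U`.  `Q ⊆ X ∪ Z`: for `e ∈ Q ∩ X'`, `e ∈ C ⊆ sat (X' ∪ (gs \ U))` and `e ∈ U`,
`e ∉ sat U`, so `e ∈ xm G U X' = xm G U X ⊆ sat (X ∪ (gs \ U)) ∩ U ⊆ X`.  As
`Q ∪ sat X ⊆ X ∪ Z` is independent, `HAL` (with `A = ∅`) gives `φ` injective on it.
`A := (image of Q under φ) ∩ tv G U`.  `φ` shows `IndA G A (sat X)`, hence
`IndA G {p,q} (sat X)` for all `p, q ∈ A`, so by `R` also for `sat X'`, so `STA` gives
`IndA G A (sat X')`, i.e. `φ'` injective on `sat X'` avoiding `A`.  `φ` on `Q` and `φ'` on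
`sat X'` glue to an injective function: if `φ e = φ' f = v` with `e ∈ Q`, `f ∈ sat X'` then
`v ∈ V(E' \ sat U) ∩ V(sat U) = tv G U`, so `v ∈ A`, contradiction.  So `Q ∪ sat X' ⊇ C` is
independent, against `|V(C)| < |C|`.  (`sat` is monotone, by `LCP`.) -/
def S_REF : Prop := S_HAL → S_LCP → (∀ G : Gr, ep G ⊆ gs G) →
    (∀ (G : Gr) (S : Finset ℕ), S ⊆ gs G → ¬ Ind G S → ∃ C ⊆ S, TC G C ∧ (V G C).card < C.card) →
    (∀ (G : Gr) (A S : Finset ℕ), Ind G S → (∀ p ∈ A, ∀ q ∈ A, IndA G {p, q} S) → IndA G A S) →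
    ∀ (G : Gr) (U X X' Z : Finset ℕ), U ⊆ gs G → X ⊆ U → X' ⊆ U → Z ⊆ gs G \ U → R G U X X' →
    (Ind G (X ∪ Z) ↔ Ind G (X' ∪ Z))

/-! ### The count -/

/-- `W` is closed: every edge of `S` with an end in `W` is not a loop and has both ends in `W`. -/
def WCl (G : Gr) (S W : Finset ℕ) : Prop :=
  W ⊆ V G S ∧ ∀ e ∈ S, ∀ u ∈ ends G e, u ∈ W → (ed G e).1 ≠ (ed G e).2 ∧ ends G e ⊆ W

/-- **WCE** (150 lines).  Let `I ⊆ S` be independent with `|I| = rk S` and
`W := {u ∈ V(S) : IndA G {u} I}`.  By `HAL` `u ∈ W` iff some injective choice `φ` on `I` misses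
`u`.  Closedness: let `e ∈ S`, `u ∈ ends e`, `u ∈ W`, `φ` missing `u`.  If `e ∉ I`, putting
`φ e := u` shows that `I ∪ {e}` is independent, a contradiction to `|I| = rk S`.  So `e ∈ I`,
`φ e ≠ u` is the other end `w`, `e` is not a loop, and changing `φ e` to `u` gives a choice
missing `w`, so `w ∈ W`.  Count: fix a choice `φ` on `I` (exists as `I` is independent).
Let `J := I.filter (ends e ⊆ W)`; `= S.filter (ends e ⊆ W)` by closedness and the argument
above.  `φ` maps `I \ J` injectively into `V(S) \ W` (if `φ e ∈ W` then `ends e ⊆ W`), and onto it: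
a vertex of `V(S) \ W` is missed by no choice, so it is `φ e` with `e ∈ I`, and
`e ∉ J`.  So `rk S = |I| = |J| + |V(S)| - |W|`, and `∑_{v ∈ W} dg S v = 2 |J|` (last part of
`BAS`). -/
def S_WCE : Prop := S_BAS → S_HAL → S_RKB → ∀ (G : Gr) (S : Finset ℕ), ∃ W, WCl G S W ∧
    2 * ((V G S).card : ℤ) - 2 * (rk G S : ℤ) = ∑ v ∈ W, (2 - (dg G S v : ℤ))

/-- The cost of a vertex. -/
def cst (G : Gr) (U₁ U₂ W₁ W₂ : Finset ℕ) (v : ℕ) : ℤ :=
  2 * ((if v ∈ V G U₁ then 1 else 0) + (if v ∈ V G U₂ then 1 else 0) - 1)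
    - (if v ∈ W₁ then 2 - (dg G U₁ v : ℤ) else 0) - (if v ∈ W₂ then 2 - (dg G U₂ v : ℤ) else 0)

/-- The setting of the count: `E'` is split into `U₁` and `U₂`, and `W₁`, `W₂` are as in
`WCE`. -/
structure Good (G : Gr) (U₁ U₂ W₁ W₂ : Finset ℕ) (l : ℕ) : Prop where
  /-- disjoint parts -/
  dj : Disjoint U₁ U₂
  /-- the union -/
  un : U₁ ∪ U₂ = ep G
  /-- `W₁` is closed -/
  c1 : WCl G U₁ W₁
  /-- `W₂` is closed -/
  c2 : WCl G U₂ W₂
  /-- the degrees are at least 2 -/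
  d2 : ∀ v ∈ V G (ep G), 2 ≤ dg G (ep G) v
  /-- there is no 2-regular component -/
  nr : ∀ D ⊆ ep G, D.Nonempty → Cl G (ep G) D → ∃ v ∈ V G D, dg G (ep G) v ≠ 2
  /-- the total cost -/
  tc : ∑ v ∈ V G (ep G), cst G U₁ U₂ W₁ W₂ v ≤ 2 * (l : ℤ)

/-- **CSE** (100 lines).  `W₁, W₂` from `WCE` for `U₁ = U ∩ E'`, `U₂ = E' \ U`.  The total cost is
`2(|V(U₁)| + |V(U₂)| - |V(E')|) - ∑_{W₁} (2 - dg U₁) - ∑_{W₂} (2 - dg U₂)
 = 2 rk U₁ + 2 rk U₂ - 2|V(E')| ≤ 2 (rk U₁ + rk U₂ - rk E') ≤ 2 lam ≤ 2 l` (`V(E')` is the union of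
`V(U₁)` and `V(U₂)`; `rk E' ≤ |V(E')|`). -/
def S_CSE : Prop := S_RKB →
    (∀ (G : Gr) (S : Finset ℕ), ∃ W, WCl G S W ∧
      2 * ((V G S).card : ℤ) - 2 * (rk G S : ℤ) = ∑ v ∈ W, (2 - (dg G S v : ℤ))) →
    (∀ (G : Gr) (U : Finset ℕ), U ⊆ gs G →
      rk G (U ∩ ep G) + rk G (ep G \ U) ≤ lam G U + rk G (ep G)) →
    (∀ G : Gr, (∀ v ∈ V G (ep G), 2 ≤ dg G (ep G) v) ∧
      ∀ D ⊆ ep G, D.Nonempty → Cl G (ep G) D → ∃ v ∈ V G D, dg G (ep G) v ≠ 2) →
    ∀ (G : Gr) (U : Finset ℕ) (l : ℕ), U ⊆ gs G → lam G U ≤ l →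
    ∃ W₁ W₂, Good G (U ∩ ep G) (ep G \ U) W₁ W₂ l

/-- **CSN** (80 lines).  Costs are `≥ 0` on `V(E')`; cost 0 at a common vertex of `V(U₁)` and
`V(U₂)` means that it is in `W₁` and `W₂` and `dg U₁ = dg U₂ = 1` (so `dg E' = 2`).  Note
`dg E' = dg U₁ + dg U₂` and `dg Uᵢ ≥ 1` iff `v ∈ V(Uᵢ)`. -/
def S_CSN : Prop := S_BAS → ∀ (G : Gr) (U₁ U₂ W₁ W₂ : Finset ℕ) (l : ℕ), Good G U₁ U₂ W₁ W₂ l →
    ∀ v ∈ V G (ep G), 0 ≤ cst G U₁ U₂ W₁ W₂ v ∧
      (v ∈ V G U₁ → v ∈ V G U₂ → 1 ≤ cst G U₁ U₂ W₁ W₂ v ∨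
        (v ∈ W₁ ∧ v ∈ W₂ ∧ dg G (ep G) v = 2))

/-- The representatives of the mixed threads, at the vertex `v`. -/
def repv (G : Gr) (U₁ U₂ W₁ W₂ : Finset ℕ) (g v : ℕ) : Prop :=
  (v ∈ V G U₁ ∧ v ∈ V G U₂ ∧ dg G (U₁ ∪ U₂) v = 2 ∧ 1 ≤ cst G U₁ U₂ W₁ W₂ v) ∨
  (3 ≤ dg G (U₁ ∪ U₂) v ∧ ((g ∈ U₁ ∧ v ∈ W₁) ∨ (g ∈ U₂ ∧ v ∈ W₂)))

open Classical in
/-- The representatives of the mixed threads. -/
noncomputable def rep (G : Gr) (U₁ U₂ W₁ W₂ : Finset ℕ) : Finset ℕ :=
  (U₁ ∪ U₂).filter (fun g => ∃ v ∈ ends G g, repv G U₁ U₂ W₁ W₂ g v)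

/-- **REP** (130 lines).  `|rep| ≤ 6 l`.  `rep` is contained in the union over `v ∈ V(E')` of
`{g ∈ E' : v ∈ ends g, repv g v}`, which has at most `3 * cst v` elements (then sum and use
`tc`; the terms are `≥ 0`).  Number of edges of `S` at `v` is `≤ dg S v`.  If `repv` holds by the
first alternative: at most `dg E' v = 2` edges and `cst ≥ 1`.  Else `d := dg E' v ≥ 3`,
`d = d₁ + d₂`: if `v ∈ W₁`, `v ∉ W₂`: at most `d₁` edges; `cst = d₁` if `v ∈ V(U₂)`, and
`cst = d₁ - 2`, `d₁ = d ≥ 3` if `v ∉ V(U₂)`.  Symmetric if only `v ∈ W₂`.  If `v` is in both: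
`cst = d - 2` and at most `d ≤ 3 (d - 2)` edges. -/
def S_REP : Prop := S_BAS → S_CSN → ∀ (G : Gr) (U₁ U₂ W₁ W₂ : Finset ℕ) (l : ℕ),
    Good G U₁ U₂ W₁ W₂ l → (rep G U₁ U₂ W₁ W₂).card ≤ 6 * l

/-- **THP** (60 lines).  Thread facts: the thread of `e ∈ E'` is thread-closed; a thread-closed set
containing `e` contains the thread; if a subset `D` of the thread contains `e` and is closed
under `lnk` in `E'` then it is the thread; and `sat S` is thread-closed and contains all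
thread-closed subsets of `S`.  (`lnk` is symmetric, so the complement in `E'` of a thread-closed
set is thread-closed.) -/
def S_THP : Prop := S_LCP → (∀ G : Gr, ep G ⊆ gs G) → ∀ (G : Gr),
    (∀ S, TC G S → TC G (ep G \ S)) ∧
    (∀ e ∈ ep G, ∀ f ∈ ep G, lnk G e f → thr G e f) ∧
    (∀ S, TC G (sat G S) ∧ sat G S ⊆ S) ∧ (∀ S D, TC G D → D ⊆ S → D ⊆ sat G S) ∧
    (∀ S S' : Finset ℕ, S ⊆ S' → sat G S ⊆ sat G S')

/-- **MIX** (130 lines).  Every edge `e` of a mixed thread has a representative in its thread.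
Here `U₁ = U ∩ E'`, `U₂ = E' \ U`.  Let `t := {f ∈ E' : thr e f}`, a thread-closed set containing
`e` (if `thr e f` and `lnk f g`, `thr f g` by `THP`).  `t ⊄ U` (else `t ⊆ sat U ∌ e`) and
`t ⊄ gs \ U`.  Suppose no element of `t` is in `rep`.
Some `f ∈ t ∩ U` and `g ∈ t \ U` share a vertex `v` of degree 2 in `E'`: else `t ∩ U` is
thread-closed, nonempty, and so is `t \ U`; but all elements of `t` are in the same thread-closed
sets, a contradiction.  Then `v ∈ V(U₁) ∩ V(U₂)`, and as `f ∉ rep`, not `1 ≤ cst v`, so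
`v ∈ W₁ ∩ W₂` (`CSN`).
`D := {f ∈ t : (f ∈ U₁ and some end of f is in W₁) or (f ∈ U₂ and some end of f is in W₂)}` is
nonempty.  By `WCl`, *both* ends of such an `f` are in `W₁` (resp. `W₂`).  Let `f ∈ D`, say
`f ∈ U₁`, `v ∈ ends f` (so `v ∈ W₁`).  As `f ∉ rep`, not `3 ≤ dg E' v`, so `dg E' v = 2`
(`d2`).  If `g ∈ E'`, `v ∈ ends g`: `lnk f g` so `g ∈ t`; if `g ∈ U₁` then `g ∈ D`; if
`g ∈ U₂` then `v ∈ V(U₁) ∩ V(U₂)`, and `cst v ≥ 1` is excluded as `f ∉ rep`, so `v ∈ W₂` and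
`g ∈ D`.  So `D` is closed under adjacency in `E'` with all degrees 2: contradiction to `nr`. -/
def S_MIX : Prop := S_BAS → S_CSN → S_LCP → S_THP → (∀ G : Gr, ep G ⊆ gs G) →
    ∀ (G : Gr) (U W₁ W₂ : Finset ℕ) (l : ℕ), U ⊆ gs G → Good G (U ∩ ep G) (ep G \ U) W₁ W₂ l →
    ∀ e ∈ ep G, e ∉ sat G U → e ∉ sat G (gs G \ U) →
    ∃ r ∈ rep G (U ∩ ep G) (ep G \ U) W₁ W₂, thr G e r

open Classical in
/-- The vertices of degree at least 3 at the ends of the thread of `r`. -/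
noncomputable def brv (G : Gr) (r : ℕ) : Finset ℕ :=
  (V G (ep G)).filter (fun v => 3 ≤ dg G (ep G) v ∧ ∃ g ∈ ep G, v ∈ ends G g ∧ thr G r g)

/-- **TH2** (130 lines).  A thread has at most 2 ends.  `t := {g ∈ E' : thr r g}`.  For `D ⊆ t`
let `i(D) := #{v ∈ V(E') : dg E' v = 2 ∧ dg D v = 2}`.  Choose `D ⊆ t` with `r ∈ D`,
`|D| ≤ i(D) + 1`, of maximal cardinality (`{r}` qualifies).  If `D ≠ t`, then `D` is not
thread-closed (else `t ⊆ D` as `thr`), so there are `f ∈ D`, `e ∈ E' \ D` with a common vertex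
`v`, `dg E' v = 2`; `e ∈ t` (`THP`).  `1 ≤ dg D v` and `dg D v + 1 ≤ dg (insert e D) v ≤ 2`, so
`v` is new: `i(insert e D) ≥ i(D) + 1` (monotone: `dg D w = 2` implies `dg (insert e D) w = 2` if
`dg E' w = 2`).  Contradiction.  So `|t| ≤ i(t) + 1`.  Now
`2|t| = ∑_{V(E')} dg t v ≥ 2 i(t) + |brv|` (for `v ∈ brv`, `dg t v ≥ 1`), so `|brv| ≤ 2`. -/
def S_TH2 : Prop := S_BAS → S_LCP → S_THP → (∀ G : Gr, ep G ⊆ gs G) → ∀ (G : Gr), ∀ r ∈ ep G,
    (brv G r).card ≤ 2

/-- **TBD** (120 lines).  `|tv| ≤ 14 l`.  Let `v ∈ tv G U`: `v ∈ ends f`, `f ∈ sat U`, and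
`v ∈ ends g`, `g ∈ E' \ sat U`.  `dg E' v ≥ 3`: it is `≥ 2` (two different edges), and if it is 2
then `lnk f g`, so `g ∈ sat U`.  If `v ∈ V(U₁) ∩ V(U₂)` then `cst v ≥ 1` (`CSN`); there are at
most `2 l` such `v` (`tc`).  Otherwise (`f ∈ U`, so) `v ∉ V(U₂)`, `g ∈ U`; `g` is mixed, so
`thr g r` for some `r ∈ rep`, and `v ∈ brv G r`; at most `2 |rep| ≤ 12 l` such `v`. -/
def S_TBD : Prop := S_BAS → S_CSN → S_LCP → S_THP → (∀ G : Gr, ep G ⊆ gs G) →
    (∀ (G : Gr) (U₁ U₂ W₁ W₂ : Finset ℕ) (l : ℕ),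
      Good G U₁ U₂ W₁ W₂ l → (rep G U₁ U₂ W₁ W₂).card ≤ 6 * l) →
    (∀ (G : Gr) (U W₁ W₂ : Finset ℕ) (l : ℕ), U ⊆ gs G → Good G (U ∩ ep G) (ep G \ U) W₁ W₂ l →
      ∀ e ∈ ep G, e ∉ sat G U → e ∉ sat G (gs G \ U) →
      ∃ r ∈ rep G (U ∩ ep G) (ep G \ U) W₁ W₂, thr G e r) →
    (∀ (G : Gr), ∀ r ∈ ep G, (brv G r).card ≤ 2) →
    ∀ (G : Gr) (U W₁ W₂ : Finset ℕ) (l : ℕ), U ⊆ gs G → Good G (U ∩ ep G) (ep G \ U) W₁ W₂ l →
    (tv G U).card ≤ 14 * l

/-- **NUM** (150 lines).  The number of classes.  `rp := rep ...`.  The map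
`X ↦ (Ind X, sat (X ∪ (gs \ U)) ∩ rp, {(p,q) ∈ tv × tv : IndA {p,q} (sat X)})` takes at most
`2 * 2^(6 l) * 2^((14 l)^2) = pi l` values (`Finset.card_powerset`), and two subsets of `U` with
the same value are `R`-related: `xm G U X` is determined by `sat (X ∪ (gs \ U)) ∩ rp`, because
`e ∈ xm G U X` iff `e ∈ U ∩ E'`, `e ∉ sat U`, `e ∈ sat (X ∪ (gs \ U))`, and such an `e` is not in
`sat (gs \ U)`, so `thr e r` with `r ∈ rp` depending on `e` only, and
`e ∈ sat (X ∪ (gs \ U)) ↔ r ∈ sat (X ∪ (gs \ U))` as `sat` is thread-closed.  Choose one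
`X` for each value. -/
def S_NUM : Prop := S_LCP → S_THP → (∀ G : Gr, ep G ⊆ gs G) →
    ∀ (G : Gr) (U : Finset ℕ) (l : ℕ) (rp : Finset ℕ), U ⊆ gs G → rp.card ≤ 6 * l →
    (tv G U).card ≤ 14 * l →
    (∀ e ∈ ep G, e ∉ sat G U → e ∉ sat G (gs G \ U) → ∃ r ∈ rp, thr G e r) →
    ∃ 𝓕 : Finset (Finset ℕ), 𝓕.card ≤ pi l ∧ (∀ X ∈ 𝓕, X ⊆ U) ∧
      ∀ X ⊆ U, ∃ X' ∈ 𝓕, R G U X X'

/-! ### The literal definition agrees -/

/-- **BI1** (120 lines).  Counting independence implies literal independence.  Let `C, C'` be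
cycles in a component `K` (connected) of `S`.  Call `A ⊆ K` tight if `|A| = |V(A)|`; cycles are
tight (`BAS`).  If `A, B` are tight then `|V(A) ∩ V(B)| ≤ |A ∩ B| ≤ |V(A ∩ B)|`
(as `|A ∪ B| ≤ |V(A ∪ B)|`, `|V(A ∪ B)| + |V(A) ∩ V(B)| = |V(A)| + |V(B)|`), and
`V(A ∩ B) ⊆ V(A) ∩ V(B)`, so `A ∩ B` is tight and `V(A ∩ B) = V(A) ∩ V(B)`.
(a) If `C ∩ C'` is nonempty: `∑_{v ∈ V(C ∩ C')} dg (C ∩ C') v = 2 |V(C ∩ C')|` and
`dg (C ∩ C') ≤ dg C = 2` so equality everywhere, so no edge of `C \ C'` has an end in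
`V(C ∩ C')`: `C ∩ C'` is closed in `C`, so `= C` (connected); same for `C'`; so `C = C'`.
(b) `C ∩ C' = ∅`: then `V(C) ∩ V(C') = ∅`.  Take `A` maximal with `C ⊆ A ⊆ K` tight and
`V(A) ∩ V(C') = ∅`.  `A ≠ K` so (connectedness of `K`) some `e ∈ K \ A` is adjacent to `A`;
`insert e A` is tight (at most one new vertex, and independence).  By maximality
`V(insert e A) ∩ V(C') ≠ ∅ = V((insert e A) ∩ C')`, so `e ∈ C'` (as `A ∩ C' = ∅`); but `e` has an
end in `V(A)`, so `V(A) ∩ V(C') ≠ ∅`, contradiction. -/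
def S_BI1 : Prop := S_BAS → ∀ (G : Gr) (S : Finset ℕ), Ind G S → BInd G S

/-- **BI2** (130 lines).  Literal independence implies counting independence.  Suppose not; let
`F ⊆ S` be minimal with `|V(F)| < |F|`.  `F` is connected (else split: `D` and `F \ D` have
disjoint vertex sets).  Let `K` be the component of `S` containing `F`: the smallest
subset of `S` containing `F` and closed under adjacency in `S` (it is connected: if `D ⊆ K` is
nonempty and closed in `K`: `D` or its complement `K \ D`, which is also closed, meets `F`, hence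
contains `F`, hence is `K`).  Every nonempty `D` with `|V(D)| ≤ |D|` contains a
cycle: take a minimal such `D`; for `e ∈ D` either `D = {e}` and `e` is a loop (a cycle), or
`|D| - 1 < |V(D \ e)| ≤ |V(D)|` so `|D| = |V(D)|` and `V(D \ e) = V(D)`, so all degrees are `≥ 2`,
with sum `2|D| = 2|V(D)|`, so all are 2; connected by splitting.  So `F` contains a cycle `C`;
take `e ∈ C`; `|F \ e| ≥ |V(F)| ≥ |V(F \ e)|` and `F \ e` is nonempty (`V(F)` is nonempty), so it
contains a cycle `C'`, `e ∉ C'`, `C ≠ C'`, both in `K`. -/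
def S_BI2 : Prop := S_BAS → ∀ (G : Gr) (S : Finset ℕ), BInd G S → Ind G S

/-! ### Computation on lists -/

/-- degree, on lists -/
def dgL (G : Gr) (l : List ℕ) (v : ℕ) : ℕ :=
  (l.map (fun i => (if (ed G i).1 = v then 1 else 0) + (if (ed G i).2 = v then 1 else 0))).sum

/-- the iteration of a filter depending on the current list -/
def itf (P : List ℕ → ℕ → Bool) (n : ℕ) (l : List ℕ) : List ℕ := (fun q => q.filter (P q))^[n] l

/-- 2-core, on lists -/
def coreL (G : Gr) (l : List ℕ) : List ℕ :=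
  itf (fun q i => decide (2 ≤ dgL G q (ed G i).1) && decide (2 ≤ dgL G q (ed G i).2)) G.length l

/-- largest closed subset, on lists -/
def lcL (G : Gr) (ρ : ℕ → ℕ → Bool) (A l : List ℕ) : List ℕ :=
  itf (fun q e => A.all (fun f => !(ρ e f) || decide (f ∈ q))) G.length
    (l.filter (fun e => decide (e ∈ A)))

/-- adjacency -/
def adjL (G : Gr) (e f : ℕ) : Bool :=
  decide ((ed G e).1 = (ed G f).1) || decide ((ed G e).1 = (ed G f).2) ||
    decide ((ed G e).2 = (ed G f).1) || decide ((ed G e).2 = (ed G f).2)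

/-- the 2-core of the graph -/
def kL (G : Gr) : List ℕ := coreL G (List.range G.length)

/-- the 2-regular components -/
def nclL (G : Gr) : List ℕ :=
  lcL G (adjL G) (kL G) ((kL G).filter (fun e =>
    decide (dgL G (kL G) (ed G e).1 = 2) && decide (dgL G (kL G) (ed G e).2 = 2)))

/-- `E'` -/
def epL (G : Gr) : List ℕ := (kL G).filter (fun e => !(decide (e ∈ nclL G)))

/-- link -/
def lnkL (G : Gr) (E : List ℕ) (e f : ℕ) : Bool :=
  (((decide ((ed G e).1 = (ed G f).1) || decide ((ed G e).1 = (ed G f).2)) &&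
    decide (dgL G E (ed G e).1 = 2)) ||
   ((decide ((ed G e).2 = (ed G f).1) || decide ((ed G e).2 = (ed G f).2)) &&
    decide (dgL G E (ed G e).2 = 2)))

/-- saturation -/
def satL (G : Gr) (l : List ℕ) : List ℕ := lcL G (lnkL G (epL G)) (epL G) l

/-- independence test -/
def indL (G : Gr) (l : List ℕ) : Bool :=
  (coreL G l).all (fun i => decide (dgL G (coreL G l) (ed G i).1 = 2) &&
    decide (dgL G (coreL G l) (ed G i).2 = 2))

/-- remove the vertices `p`, `q`: an edge with one end among them becomes a loop at its other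
end -/
def fixP (p q : ℕ) (G : Gr) : Gr :=
  G.map (fun e => if e.1 = p ∨ e.1 = q then (e.2, e.2) else if e.2 = p ∨ e.2 = q then (e.1, e.1)
    else e)

/-- test of `IndA G {p, q}` -/
def indPQ (G : Gr) (p q : ℕ) (l : List ℕ) : Bool :=
  l.all (fun i => !((decide ((ed G i).1 = p) || decide ((ed G i).1 = q)) &&
    (decide ((ed G i).2 = p) || decide ((ed G i).2 = q)))) && indL (fixP p q G) l

/-- the vertices of a list of edges -/
def vL (G : Gr) (l : List ℕ) : List ℕ := l.map (fun i => (ed G i).1) ++ l.map (fun i => (ed G i).2)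

/-- normal form of a list of edges: increasing, in range -/
def nL (G : Gr) (l : List ℕ) : List ℕ := (List.range G.length).filter (fun i => decide (i ∈ l))

/-- the complement -/
def cL (G : Gr) (l : List ℕ) : List ℕ :=
  (List.range G.length).filter (fun i => !(decide (i ∈ l)))

/-- `xm` -/
def xmL (G : Gr) (u x : List ℕ) : List ℕ :=
  (satL G (nL G (x ++ cL G u))).filter (fun e => decide (e ∈ u) && !(decide (e ∈ satL G u)))

/-- `tv` -/
def tvL (G : Gr) (u : List ℕ) : List ℕ :=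
  (vL G (satL G u)).filter (fun v =>
    decide (v ∈ vL G ((epL G).filter (fun e => !(decide (e ∈ satL G u))))))

/-- the decision procedure, on normalised lists -/
def RL0 (G : Gr) (u x y : List ℕ) : Bool :=
  (!(indL G x) && !(indL G y)) || ((indL G x && indL G y) &&
    (((xmL G u x).all (fun e => decide (e ∈ xmL G u y)) &&
      (xmL G u y).all (fun e => decide (e ∈ xmL G u x))) &&
    (tvL G u).all (fun p => (tvL G u).all (fun q =>
      decide (indPQ G p q (satL G x) = indPQ G p q (satL G y))))))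

/-- the decision procedure -/
def RL (G : Gr) (u x y : List ℕ) : Bool := RL0 G (nL G u) (nL G x) (nL G y)

/-- **LI1** (80 lines).  Correctness of `dgL` and `coreL` on lists without duplicates. -/
def S_LI1 : Prop := (∀ (G : Gr) (l : List ℕ) (v : ℕ), l.Nodup → dgL G l v = dg G l.toFinset v) ∧
    (∀ (G : Gr) (l : List ℕ), l.Nodup → (coreL G l).Nodup ∧
      (coreL G l).toFinset = core G l.toFinset)

/-- **LI2** (70 lines).  Correctness of `lcL` (induct on the number of iterations). -/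
def S_LI2 : Prop := ∀ (G : Gr) (ρ : ℕ → ℕ → Bool) (A l : List ℕ), l.Nodup →
    (lcL G ρ A l).Nodup ∧
    (lcL G ρ A l).toFinset = lc G (fun e f => ρ e f = true) A.toFinset l.toFinset

/-- **LI3** (100 lines).  Correctness of `epL`, `satL`. -/
def S_LI3 : Prop := S_LI1 → S_LI2 → ∀ (G : Gr), (epL G).Nodup ∧ (epL G).toFinset = ep G ∧
    ∀ l : List ℕ, l.Nodup → (satL G l).Nodup ∧ (satL G l).toFinset = sat G l.toFinset

/-- **LI4** (60 lines).  Correctness of `indL` (from `LI1` and the conclusion of `ICO`). -/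
def S_LI4 : Prop := S_LI1 → (∀ (G : Gr) (S : Finset ℕ), S ⊆ gs G →
    (Ind G S ↔ ∀ e ∈ core G S, dg G (core G S) (ed G e).1 = 2 ∧ dg G (core G S) (ed G e).2 = 2)) →
    ∀ (G : Gr) (l : List ℕ), l.Nodup → (∀ i ∈ l, i < G.length) →
      (indL G l = true ↔ Ind G l.toFinset)

/-- **LI5** (80 lines).  Correctness of `indPQ`: if some edge of `l` has both ends in `{p, q}` then
`IndA G {p, q}` fails for this single edge; otherwise
`V (fixP p q G) F = V G F \ {p, q}` for `F ⊆ l` (edges of index `< n`). -/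
def S_LI5 : Prop := (∀ (G : Gr) (l : List ℕ), l.Nodup → (∀ i ∈ l, i < G.length) →
      (indL G l = true ↔ Ind G l.toFinset)) →
    ∀ (G : Gr) (p q : ℕ) (l : List ℕ), l.Nodup → (∀ i ∈ l, i < G.length) →
      (indPQ G p q l = true ↔ IndA G {p, q} l.toFinset)

/-- **LI6** (120 lines).  Correctness of `RL`. -/
def S_LI6 : Prop := (∀ G : Gr, ep G ⊆ gs G) →
    (∀ (G : Gr) (A S : Finset ℕ) (ρ : ℕ → ℕ → Prop), lc G ρ A S ⊆ S ∩ A) →
    (∀ (G : Gr), (epL G).Nodup ∧ (epL G).toFinset = ep G ∧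
      ∀ l : List ℕ, l.Nodup → (satL G l).Nodup ∧ (satL G l).toFinset = sat G l.toFinset) →
    (∀ (G : Gr) (l : List ℕ), l.Nodup → (∀ i ∈ l, i < G.length) →
      (indL G l = true ↔ Ind G l.toFinset)) →
    (∀ (G : Gr) (p q : ℕ) (l : List ℕ), l.Nodup → (∀ i ∈ l, i < G.length) →
      (indPQ G p q l = true ↔ IndA G {p, q} l.toFinset)) →
    ∀ (G : Gr) (u x y : List ℕ), u.toFinset ⊆ gs G → x.toFinset ⊆ u.toFinset →
      y.toFinset ⊆ u.toFinset → (RL G u x y = true ↔ R G u.toFinset x.toFinset y.toFinset)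

/-- **PO1** (60 lines).  The iterated filter is polynomial-time computable if the predicate is
(`Poly.iterLen`; the lists only shrink: `sz` of a sublist is at most `sz` of the list;
`n = G.length` is the length of a poly-time computable list). -/
def S_PO1 : Prop := ∀ {α : Type} [TEnc α] (P : α → List ℕ → ℕ → Bool) (G : α → Gr)
    (l : α → List ℕ), Poly (fun p : α × List ℕ × ℕ => P p.1 p.2.1 p.2.2) → Poly G → Poly l →
    Poly (fun a => itf (P a) (G a).length (l a))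

/-- **PO2** (60 lines).  Poly-time: `ed`, `dgL`, `coreL`, `indL` (use `fun_prop` of
`H671R2/PolyAuto`, `Poly.sum`, `Poly.map`, `Poly.getD`). -/
def S_PO2 : Prop := S_PO1 → Poly (fun p : Gr × ℕ => ed p.1 p.2) ∧
    Poly (fun p : Gr × List ℕ × ℕ => dgL p.1 p.2.1 p.2.2) ∧
    Poly (fun p : Gr × List ℕ => coreL p.1 p.2) ∧ Poly (fun p : Gr × List ℕ => indL p.1 p.2)

/-- **PO3** (100 lines).  Poly-time: `lcL` for a poly-time relation, `epL`, `satL`. -/
def S_PO3 : Prop := S_PO1 → S_PO2 →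
    (∀ {α : Type} [TEnc α] (G : α → Gr) (ρ : α → ℕ → ℕ → Bool) (A l : α → List ℕ), Poly G →
      Poly (fun p : α × ℕ × ℕ => ρ p.1 p.2.1 p.2.2) → Poly A → Poly l →
      Poly (fun a => lcL (G a) (ρ a) (A a) (l a))) ∧
    Poly (fun G : Gr => epL G) ∧ Poly (fun p : Gr × List ℕ => satL p.1 p.2)

/-- **PO4** (100 lines).  Poly-time: `RL`. -/
def S_PO4 : Prop := S_PO1 → S_PO2 → S_PO3 →
    Poly (fun p : Gr × List ℕ × List ℕ × List ℕ => RL p.1 p.2.1 p.2.2.1 p.2.2.2) ∧
    Poly (fun p : Gr × List ℕ => nL p.1 p.2)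

/-- A code with vertex names smaller than twice the number of edges (every graph without isolated
vertices has one). -/
def Nice (G : Gr) : Prop := ∀ e ∈ G, e.1 < 2 * G.length ∧ e.2 < 2 * G.length

/-- **LEN** (100 lines).  The length of the input is polynomial in the number of edges: a number
`m < 2n + 1` has a code of length `≤ 4 m + 1`-ish (`sz_nat_le`, `Nat.size_le` ...), a list of `k`
elements of size `≤ s` has size `≤ k (s + 1) + 1` (`sz_le_length_mul`), and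
`(bits a).length = sz a`.  Any explicit constant is fine. -/
def S_LEN : Prop := ∃ K : ℕ, ∀ (G : Gr) (u x y : List ℕ), Nice G →
    u.length ≤ G.length → x.length ≤ G.length → y.length ≤ G.length → (∀ i ∈ u, i < G.length) →
    (∀ i ∈ x, i < G.length) → (∀ i ∈ y, i < G.length) →
    (bits (G, u, x, y)).length ≤ K * (G.length + 1) ^ 2 ∧
    (bits (G, x)).length ≤ K * (G.length + 1) ^ 2

end Pool.Agent.T2h28.BP
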