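import Pool.Agent.T2h28.BP.Stm

/-!
# MIX: every mixed thread contains a representative
-/

set_option linter.all false

namespace Pool.Agent.T2h28.BP

theorem t_MIX : S_MIX := by
  classical
  intro hbas hcsn _ hthp hep G U W₁ W₂ l hU hG e he heU heU'
  obtain ⟨-, hlk, -, hmx, -⟩ := hthp ‹_› hep G
  by_contra hno
  push Not at hno
  set E := ep G with hE
  set U₁ : Finset ℕ := U ∩ E with hU₁
  set U₂ : Finset ℕ := E \ U with hU₂
  have hVmem : ∀ (S : Finset ℕ) (f v : ℕ), f ∈ S → v ∈ ends G f → v ∈ V G S := fun S f v h1 h2 =>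
    Finset.mem_biUnion.2 ⟨f, h1, h2⟩
  set t : Finset ℕ := E.filter (fun g => thr G e g) with ht
  have htE : t ⊆ E := Finset.filter_subset _ _
  have het : e ∈ t := Finset.mem_filter.2 ⟨he, fun S _ => Iff.rfl⟩
  have htl : ∀ f ∈ t, ∀ g ∈ E, lnk G f g → g ∈ t := fun f hf g hg hfg =>
    Finset.mem_filter.2 ⟨hg, fun S hS => ((Finset.mem_filter.1 hf).2 S hS).trans
      (hlk f (htE hf) g hg hfg S hS)⟩
  have htTC : TC G t := ⟨htE, htl⟩
  have hun : U₁ ∪ U₂ = E := hG.un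
  have hrep : ∀ f ∈ t, ∀ v ∈ ends G f, ¬ repv G U₁ U₂ W₁ W₂ f v := by
    intro f hf v hv hr
    refine hno f ?_ (Finset.mem_filter.1 hf).2
    rw [rep, Finset.mem_filter, hG.un]
    exact ⟨htE hf, v, hv, hr⟩
  have hVE : ∀ f ∈ t, ∀ v ∈ ends G f, v ∈ V G E := fun f hf v hv => hVmem _ f v (htE hf) hv
  -- both kinds of edges occur
  obtain ⟨y, hyt, hyU⟩ : ∃ y ∈ t, y ∉ U := by
    by_contra h
    push Not at h
    exact heU (hmx U t htTC h het)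
  obtain ⟨x, hxt, hxU⟩ : ∃ x ∈ t, x ∈ U := by
    by_contra h
    push Not at h
    exact heU' (hmx (gs G \ U) t htTC
      (fun z hz => Finset.mem_sdiff.2 ⟨hep G (htE hz), h z hz⟩) het)
  obtain ⟨f, hft, hfU, g, hgt, hgU, hfg⟩ : ∃ f ∈ t, f ∈ U ∧ ∃ g ∈ t, g ∉ U ∧ lnk G f g := by
    by_contra h
    push Not at h
    have hTC : TC G (t ∩ U) := by
      refine ⟨Finset.inter_subset_left.trans htE, ?_⟩
      intro f hf g hg hfg
      rw [Finset.mem_inter] at hf ⊢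
      have hgt := htl f hf.1 g hg hfg
      refine ⟨hgt, ?_⟩
      by_contra hgU
      exact h f hf.1 hf.2 g hgt hgU hfg
    have h1 := (Finset.mem_filter.1 hxt).2 _ hTC
    have h2 := (Finset.mem_filter.1 hyt).2 _ hTC
    have h3 : x ∈ t ∩ U := Finset.mem_inter.2 ⟨hxt, hxU⟩
    have h4 : y ∈ t ∩ U := h2.1 (h1.2 h3)
    exact hyU (Finset.mem_inter.1 h4).2
  obtain ⟨v, hvf, hvg, hv2⟩ := hfg
  have hfU₁ : f ∈ U₁ := Finset.mem_inter.2 ⟨hfU, htE hft⟩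
  have hgU₂ : g ∈ U₂ := Finset.mem_sdiff.2 ⟨htE hgt, hgU⟩
  -- common vertices of degree two
  have hcom : ∀ f ∈ t, ∀ v ∈ ends G f, dg G E v = 2 → v ∈ V G U₁ → v ∈ V G U₂ →
      v ∈ W₁ ∧ v ∈ W₂ := by
    intro f hf v hv h2 h3 h4
    rcases (hcsn hbas G U₁ U₂ W₁ W₂ l hG v (hVE f hf v hv)).2 h3 h4 with h | h
    · exact absurd (Or.inl ⟨h3, h4, by rw [hG.un]; exact h2, h⟩) (hrep f hf v hv)
    · exact ⟨h.1, h.2.1⟩
  have hvW := hcom f hft v hvf hv2 (hVmem _ f v hfU₁ hvf) (hVmem _ g v hgU₂ hvg)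
  set D : Finset ℕ := t.filter (fun f => (f ∈ U₁ ∧ ∃ u ∈ ends G f, u ∈ W₁) ∨
    (f ∈ U₂ ∧ ∃ u ∈ ends G f, u ∈ W₂)) with hD
  have hfD : f ∈ D := Finset.mem_filter.2 ⟨hft, Or.inl ⟨hfU₁, v, hvf, hvW.1⟩⟩
  have hkey : ∀ f ∈ D, ∀ v ∈ ends G f, dg G E v = 2 ∧ ∀ g ∈ E, v ∈ ends G g → g ∈ D := by
    intro f hf v hv
    rw [hD, Finset.mem_filter] at hf
    obtain ⟨hf, h | h⟩ := hf
    · obtain ⟨h1, u, hu, huW⟩ := h
      have hvW : v ∈ W₁ := (hG.c1.2 f h1 u hu huW).2 hv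
      have hd : dg G E v = 2 := by
        have h2 : 2 ≤ dg G E v := hG.d2 v (hVE f hf v hv)
        have h3 := hrep f hf v hv
        unfold repv at h3
        rw [hun] at h3
        by_contra h4
        exact h3 (Or.inr ⟨by omega, Or.inl ⟨h1, hvW⟩⟩)
      refine ⟨hd, fun g hg hvg => ?_⟩
      have hgt := htl f hf g hg ⟨v, hv, hvg, hd⟩
      rw [hD, Finset.mem_filter]
      refine ⟨hgt, ?_⟩
      by_cases hgU : g ∈ U
      · exact Or.inl ⟨Finset.mem_inter.2 ⟨hgU, hg⟩, v, hvg, hvW⟩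
      · have hg2 : g ∈ U₂ := Finset.mem_sdiff.2 ⟨hg, hgU⟩
        exact Or.inr ⟨hg2, v, hvg,
          (hcom f hf v hv hd (hVmem _ f v h1 hv) (hVmem _ g v hg2 hvg)).2⟩
    · obtain ⟨h1, u, hu, huW⟩ := h
      have hvW : v ∈ W₂ := (hG.c2.2 f h1 u hu huW).2 hv
      have hd : dg G E v = 2 := by
        have h2 : 2 ≤ dg G E v := hG.d2 v (hVE f hf v hv)
        have h3 := hrep f hf v hv
        unfold repv at h3
        rw [hun] at h3
        by_contra h4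
        exact h3 (Or.inr ⟨by omega, Or.inr ⟨h1, hvW⟩⟩)
      refine ⟨hd, fun g hg hvg => ?_⟩
      have hgt := htl f hf g hg ⟨v, hv, hvg, hd⟩
      rw [hD, Finset.mem_filter]
      refine ⟨hgt, ?_⟩
      by_cases hgU : g ∈ U
      · have hg1 : g ∈ U₁ := Finset.mem_inter.2 ⟨hgU, hg⟩
        exact Or.inl ⟨hg1, v, hvg,
          (hcom f hf v hv hd (hVmem _ g v hg1 hvg) (hVmem _ f v h1 hv)).1⟩
      · exact Or.inr ⟨Finset.mem_sdiff.2 ⟨hg, hgU⟩, v, hvg, hvW⟩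
  have hDE : D ⊆ E := (Finset.filter_subset _ _).trans htE
  obtain ⟨z, hz, hz2⟩ := hG.nr D hDE ⟨f, hfD⟩ (fun a ha b hb hab => by
    obtain ⟨u, hu1, hu2⟩ := hab
    exact (hkey a ha u hu1).2 b hb hu2)
  obtain ⟨a, ha, haz⟩ := Finset.mem_biUnion.1 hz
  exact hz2 (hkey a ha z haz).1

end Pool.Agent.T2h28.BP
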