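import Pool.Agent.T2h28.BP.Stm

/-!
# TH2: a thread has at most two ends
-/

set_option linter.all false

namespace Pool.Agent.T2h28.BP

theorem t_TH2 : S_TH2 := by
  classical
  intro hbas _ hthp hep G r hr
  obtain ⟨b1, -, b3, b4, b5, -, -⟩ := hbas
  obtain ⟨-, hlk, -, -, -⟩ := hthp ‹_› hep G
  set t : Finset ℕ := (ep G).filter (fun g => thr G r g) with ht
  set iD : Finset ℕ → Finset ℕ := fun D =>
    (V G (ep G)).filter (fun v => dg G (ep G) v = 2 ∧ dg G D v = 2) with hiD
  have htE : t ⊆ ep G := Finset.filter_subset _ _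
  have hrt : r ∈ t := Finset.mem_filter.2 ⟨hr, fun S _ => Iff.rfl⟩
  have hVmem : ∀ (S : Finset ℕ) (f v : ℕ), f ∈ S → v ∈ ends G f → v ∈ V G S := fun S f v h1 h2 =>
    Finset.mem_biUnion.2 ⟨f, h1, h2⟩
  have hVmono : ∀ S S' : Finset ℕ, S ⊆ S' → V G S ⊆ V G S' := fun S S' h =>
    Finset.biUnion_subset_biUnion_of_subset_left _ h
  -- the maximal subset
  obtain ⟨D, hD, hmax⟩ := Finset.exists_max_image
    (t.powerset.filter (fun D => r ∈ D ∧ D.card ≤ (iD D).card + 1)) Finset.card
    ⟨{r}, by
      rw [Finset.mem_filter, Finset.mem_powerset]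
      exact ⟨Finset.singleton_subset_iff.2 hrt, Finset.mem_singleton_self _, by simp⟩⟩
  rw [Finset.mem_filter, Finset.mem_powerset] at hD
  obtain ⟨hDt, hrD, hDc⟩ := hD
  have hDeq : D = t := by
    by_contra hne
    have hDE : D ⊆ ep G := hDt.trans htE
    have hnTC : ¬ TC G D := by
      intro hTC
      apply hne
      refine Finset.Subset.antisymm hDt ?_
      intro f hf
      exact ((Finset.mem_filter.1 hf).2 D hTC).1 hrD
    unfold TC at hnTC
    push Not at hnTC
    obtain ⟨f, hf, e, he, hfe, heD⟩ := hnTC hDE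
    have hthr : thr G f e := hlk f (hDE hf) e he hfe
    have het : e ∈ t := Finset.mem_filter.2 ⟨he, fun S hS =>
      ((Finset.mem_filter.1 (hDt hf)).2 S hS).trans (hthr S hS)⟩
    obtain ⟨v, hvf, hve, hv2⟩ := hfe
    have hins : insert e D ⊆ t := Finset.insert_subset het hDt
    have h1 : 1 ≤ dg G D v := (b4 G D v).1 (hVmem D f v hf hvf)
    have h2 := b5 G D v e heD hve
    have h3 := b3 G (insert e D) (ep G) v (hins.trans htE)
    have hvE : v ∈ V G (ep G) := hVmem _ f v (hDE hf) hvf
    have hss : insert v (iD D) ⊆ iD (insert e D) := by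
      refine Finset.insert_subset ?_ ?_
      · rw [hiD, Finset.mem_filter]
        exact ⟨hvE, hv2, by omega⟩
      · intro w hw
        rw [hiD, Finset.mem_filter] at hw ⊢
        obtain ⟨hw1, hw2, hw3⟩ := hw
        have h4 := b3 G D (insert e D) w (Finset.subset_insert _ _)
        have h5 := b3 G (insert e D) (ep G) w (hins.trans htE)
        exact ⟨hw1, hw2, by omega⟩
    have hvn : v ∉ iD D := by
      rw [hiD, Finset.mem_filter]
      rintro ⟨-, -, h⟩
      omega
    have h6 := Finset.card_le_card hss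
    rw [Finset.card_insert_of_notMem hvn] at h6
    have h7 : (insert e D).card = D.card + 1 := Finset.card_insert_of_notMem heD
    have h8 := hmax (insert e D) (by
      rw [Finset.mem_filter, Finset.mem_powerset]
      exact ⟨hins, Finset.mem_insert_of_mem hrD, by omega⟩)
    omega
  rw [hDeq] at hDc
  -- the double count
  have hsum := b1 G t (V G (ep G)) (hVmono _ _ htE)
  have hdj : Disjoint (iD t) (brv G r) := by
    rw [Finset.disjoint_left]
    intro v hv hv'
    rw [hiD, Finset.mem_filter] at hv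
    rw [brv, Finset.mem_filter] at hv'
    omega
  have hsub : iD t ∪ brv G r ⊆ V G (ep G) := by
    refine Finset.union_subset (Finset.filter_subset _ _) ?_
    rw [brv]
    exact Finset.filter_subset _ _
  have hle := Finset.sum_le_sum_of_subset (f := fun v => dg G t v) hsub
  rw [Finset.sum_union hdj] at hle
  have h1 : ∑ v ∈ iD t, dg G t v = 2 * (iD t).card := by
    rw [Finset.sum_congr rfl (fun v hv => ?_), Finset.sum_const, smul_eq_mul, mul_comm]
    rw [hiD, Finset.mem_filter] at hv
    exact hv.2.2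
  have h2 : (brv G r).card ≤ ∑ v ∈ brv G r, dg G t v := by
    rw [Finset.card_eq_sum_ones]
    refine Finset.sum_le_sum fun v hv => ?_
    rw [brv, Finset.mem_filter] at hv
    obtain ⟨-, -, g, hg, hvg, hgt⟩ := hv
    exact (b4 G t v).1 (hVmem t g v (Finset.mem_filter.2 ⟨hg, hgt⟩) hvg)
  omega

end Pool.Agent.T2h28.BP
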